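import Pool.Agent.Q98.SPN.Stm

/-! # Project SPN (helper98), job SPEC: spectral decomposition -/

set_option autoImplicit false

open scoped Matrix.Norms.L2Operator Matrix ComplexOrder
open Finset

namespace Pool.Agent.Q208.SPN

open Pool.Agent.Q98.SPN

/-- the powers of a diagonalised matrix -/
lemma pow_diag {d : ℕ} (U D : Matrix (Fin d) (Fin d) ℂ) (h : Uᴴ * U = 1) (h' : U * Uᴴ = 1) (κ : ℕ) :
    (U * D * Uᴴ) ^ κ = U * D ^ κ * Uᴴ := by
  induction κ with
  | zero => rw [pow_zero, pow_zero, mul_one, h']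
  | succ n ih =>
    rw [pow_succ, ih, pow_succ]
    calc U * D ^ n * Uᴴ * (U * D * Uᴴ) = U * D ^ n * (Uᴴ * U) * D * Uᴴ := by simp only [mul_assoc]
      _ = U * (D ^ n * D) * Uᴴ := by rw [h, mul_one]; simp only [mul_assoc]

/-- **SPEC** -/
theorem SPEC_ok : S_SPEC := by
  intro d Y
  have hps : (Yᴴ * Y).PosSemidef := Matrix.posSemidef_conjTranspose_mul_self Y
  have hH : (Yᴴ * Y).IsHermitian := hps.1
  set U : Matrix (Fin d) (Fin d) ℂ := (hH.eigenvectorUnitary : Matrix (Fin d) (Fin d) ℂ) with hU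
  set l : Fin d → ℝ := hH.eigenvalues with hl
  have hUU : U * Uᴴ = 1 := by
    have := Unitary.mul_star_self_of_mem hH.eigenvectorUnitary.2
    rw [Matrix.star_eq_conjTranspose] at this
    exact this
  have hUU' : Uᴴ * U = 1 := by
    have := Unitary.star_mul_self_of_mem hH.eigenvectorUnitary.2
    rw [Matrix.star_eq_conjTranspose] at this
    exact this
  set D : Matrix (Fin d) (Fin d) ℂ := Matrix.diagonal (fun j => ((l j : ℝ) : ℂ)) with hD
  have hsp : Yᴴ * Y = U * D * Uᴴ := by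
    have h1 := hH.spectral_theorem
    rw [Unitary.conjStarAlgAut_apply] at h1
    exact h1
  refine ⟨U, l, hUU, hUU', fun j => hps.eigenvalues_nonneg j, ?_, fun κ => ?_⟩
  · rw [Matrix.conjTranspose_mul]
    calc Uᴴ * Yᴴ * (Y * U) = Uᴴ * (Yᴴ * Y) * U := by simp only [mul_assoc]
      _ = (Uᴴ * U) * D * (Uᴴ * U) := by rw [hsp]; simp only [mul_assoc]
      _ = D := by rw [hUU', one_mul, mul_one]
  · unfold tk
    rw [hsp, pow_diag U D hUU' hUU, Matrix.trace_mul_cycle, hUU', one_mul, hD, Matrix.diagonal_pow,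
      Matrix.trace_diagonal]
    rw [Complex.re_sum]
    refine Finset.sum_congr rfl fun j _ => ?_
    rw [Pi.pow_apply, ← Complex.ofReal_pow, Complex.ofReal_re]

end Pool.Agent.Q208.SPN
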